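import Pool.Agent.K1H69.PC.Geo

/-!
# Project PC (helper23), piece S_MEM, part 2: counting the crossings
-/

namespace Pool.Agent.K1H69.PC

open Pool.Agent.K1H23.PC Finset

/-- The segments of the edges. -/
def SG (E : List (ℕ × ℕ)) : List ((ℕ × ℕ) × ℕ) := E.flatMap fun e => [(e, e.1), (e, e.2)]

/-- The pairs of segments. -/
def LL (E : List (ℕ × ℕ)) : List (((ℕ × ℕ) × ℕ) × ((ℕ × ℕ) × ℕ)) :=
  (SG E).flatMap fun a => (SG E).map fun b => (a, b)

theorem mem_SG {E : List (ℕ × ℕ)} {a : (ℕ × ℕ) × ℕ} : a ∈ SG E ↔ a.1 ∈ E ∧ En a.1 a.2 := by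
  unfold SG En
  rw [List.mem_flatMap]
  constructor
  · rintro ⟨e, he, ha⟩
    simp only [List.mem_cons, List.not_mem_nil, or_false] at ha
    rcases ha with rfl | rfl
    · exact ⟨he, Or.inl rfl⟩
    · exact ⟨he, Or.inr rfl⟩
  · rintro ⟨he, h⟩
    refine ⟨a.1, he, ?_⟩
    simp only [List.mem_cons, List.not_mem_nil, or_false]
    rcases h with h | h
    · exact Or.inl (Prod.ext rfl h)
    · exact Or.inr (Prod.ext rfl h)

theorem mem_LL {E : List (ℕ × ℕ)} {ab : ((ℕ × ℕ) × ℕ) × ((ℕ × ℕ) × ℕ)} :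
    ab ∈ LL E ↔ ab.1 ∈ SG E ∧ ab.2 ∈ SG E := by
  unfold LL
  rw [List.mem_flatMap]
  constructor
  · rintro ⟨a, ha, h⟩
    obtain ⟨b, hb, rfl⟩ := List.mem_map.1 h
    exact ⟨ha, hb⟩
  · rintro ⟨h1, h2⟩
    exact ⟨ab.1, h1, List.mem_map.2 ⟨ab.2, h2, rfl⟩⟩

theorem nodup_SG {E : List (ℕ × ℕ)} (h : E.Nodup) (h2 : ∀ e ∈ E, e.1 ≠ e.2) : (SG E).Nodup := by
  unfold SG
  rw [List.nodup_flatMap]
  constructor
  · intro e he
    simp only [List.nodup_cons, List.mem_cons, Prod.mk.injEq, true_and, List.not_mem_nil, or_false,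
      not_false_eq_true, List.nodup_nil, and_true]
    exact h2 e he
  · refine List.Pairwise.imp ?_ h
    intro e f hef
    simp only [Function.onFun]
    intro x hx hy
    apply hef
    simp only [List.mem_cons, List.not_mem_nil, or_false] at hx hy
    have h3 : x.1 = e := by rcases hx with rfl | rfl <;> rfl
    have h4 : x.1 = f := by rcases hy with rfl | rfl <;> rfl
    rw [← h3, h4]

theorem nodup_LL {E : List (ℕ × ℕ)} (h : (SG E).Nodup) : (LL E).Nodup := by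
  unfold LL
  rw [List.nodup_flatMap]
  constructor
  · intro a _
    exact h.map fun b c hbc => by simpa using hbc
  · refine List.Pairwise.imp ?_ h
    intro a b hab
    simp only [Function.onFun]
    intro x hx hy
    apply hab
    obtain ⟨c, -, rfl⟩ := List.mem_map.1 hx
    obtain ⟨d, -, h5⟩ := List.mem_map.1 hy
    exact (congrArg Prod.fst h5).symm

/-! ### Codes -/

/-- A pairing function. -/
def cdp (m n : ℕ) : ℕ := (m + n) * (m + n) + m

theorem cdp_inj {m n m' n' : ℕ} (h : cdp m n = cdp m' n') : m = m' ∧ n = n' := by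
  unfold cdp at h
  have h1 : m + n = m' + n' := by
    rcases lt_trichotomy (m + n) (m' + n') with h1 | h1 | h1
    · exfalso
      nlinarith
    · exact h1
    · exfalso
      nlinarith
  rw [h1] at h
  omega

/-- The code of an edge. -/
def cd (e : ℕ × ℕ) : ℕ := cdp e.1 e.2

theorem cd_inj : Function.Injective cd := fun _ _ h => Prod.ext (cdp_inj h).1 (cdp_inj h).2

/-- The code of a pair of segments. -/
def code (ab : ((ℕ × ℕ) × ℕ) × ((ℕ × ℕ) × ℕ)) : ℕ :=
  cdp (cdp (cd ab.1.1) ab.1.2) (cdp (cd ab.2.1) ab.2.2)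

theorem code_inj : Function.Injective code := by
  rintro ⟨⟨e, w⟩, f, u⟩ ⟨⟨e', w'⟩, f', u'⟩ h
  obtain ⟨h1, h2⟩ := cdp_inj h
  obtain ⟨h3, h4⟩ := cdp_inj h1
  obtain ⟨h5, h6⟩ := cdp_inj h2
  have h7 : e = e' := cd_inj h3
  have h8 : f = f' := cd_inj h5
  simp only at h4 h6
  rw [h7, h8, h4, h6]

open Classical in
/-- The crossings. -/
noncomputable def TT (E : List (ℕ × ℕ)) (φ : ℕ → ℝ × ℝ) (β : ℕ × ℕ → ℝ × ℝ) :
    Finset (((ℕ × ℕ) × ℕ) × ((ℕ × ℕ) × ℕ)) :=
  (LL E).toFinset.filter fun ab => cd ab.1.1 < cd ab.2.1 ∧ X φ β ab.1 ab.2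

open Classical in
theorem crossings_count {V : List ℕ} {E : List (ℕ × ℕ)} {φ : ℕ → ℝ × ℝ}
    {q : ℕ × ℕ → ℕ → ℝ × ℝ} (hV : ∀ e ∈ E, e.1 ∈ V ∧ e.2 ∈ V)
    (hq : ∀ e ∈ E, q e 0 = φ e.1 ∧ q e 2 = φ e.2) (h : Dw V E φ (fun e => q e 1)) :
    (crossings 2 E φ q).Finite ∧
      (crossings 2 E φ q).ncard = (TT E φ (fun e => q e 1)).card := by
  set β : ℕ × ℕ → ℝ × ℝ := fun e => q e 1 with hβ
  let g : (((ℕ × ℕ) × ℕ) × ((ℕ × ℕ) × ℕ)) → Sym2 (ℕ × ℕ) × (ℝ × ℝ) := fun ab =>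
    (s(ab.1.1, ab.2.1), if h : ∃ z, z ∈ Sg φ β ab.1 ∧ z ∈ Sg φ β ab.2 then h.choose else 0)
  have hT : ∀ ab ∈ TT E φ β, ab.1.1 ∈ E ∧ ab.2.1 ∈ E ∧ En ab.1.1 ab.1.2 ∧ En ab.2.1 ab.2.2 ∧
      cd ab.1.1 < cd ab.2.1 ∧ X φ β ab.1 ab.2 := by
    intro ab hab
    unfold TT at hab
    rw [mem_filter, List.mem_toFinset, mem_LL, mem_SG, mem_SG] at hab
    obtain ⟨⟨⟨h1, h2⟩, h3, h4⟩, h5, h6⟩ := hab
    exact ⟨h1, h3, h2, h4, h5, h6⟩
  have hg : ∀ ab ∈ TT E φ β, ab.1.2 ≠ ab.2.2 ∧ (g ab).2 ∈ Sg φ β ab.1 ∧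
      (g ab).2 ∈ Sg φ β ab.2 := by
    intro ab hab
    obtain ⟨h1, h2, h3, h4, h5, h6⟩ := hT ab hab
    have hne : ab.1.1 ≠ ab.2.1 := by
      intro h0
      rw [h0] at h5
      exact lt_irrefl _ h5
    obtain ⟨h7, h8⟩ := (h.cross hV h1 h2 hne h3 h4).2 h6
    have h9 : ∃ z, z ∈ Sg φ β ab.1 ∧ z ∈ Sg φ β ab.2 := h8
    refine ⟨h7, ?_⟩
    simp only [g]
    rw [dif_pos h9]
    exact h9.choose_spec
  have himg : crossings 2 E φ q = g '' (TT E φ β : Set _) := by
    ext z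
    rw [Set.mem_image]
    constructor
    · rintro ⟨e, he, f, hf, hef, hz1, hz2, hz3, hno⟩
      have key : ∀ e ∈ E, z.2 ∈ path 2 (q e) → ∃ w, En e w ∧ z.2 ∈ Sg φ β (e, w) := by
        intro e he hz
        rw [mem_path, (hq e he).1, (hq e he).2] at hz
        rcases hz with hz | hz
        · exact ⟨e.1, Or.inl rfl, hz⟩
        · exact ⟨e.2, Or.inr rfl, hz⟩
      obtain ⟨w, hw, hzw⟩ := key e he hz2
      obtain ⟨w', hw', hzw'⟩ := key f hf hz3
      have hne : w ≠ w' := by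
        rintro rfl
        exact hno ⟨w, hw, hw', h.same he hf hef hw hw' hzw hzw'⟩
      -- both orders
      have main : ∀ e ∈ E, ∀ f ∈ E, e ≠ f → z.1 = s(e, f) → ∀ w w', En e w → En f w' → w ≠ w' →
          z.2 ∈ Sg φ β (e, w) → z.2 ∈ Sg φ β (f, w') → cd e < cd f →
          ∃ x ∈ (TT E φ β : Set _), g x = z := by
        intro e he f hf hef hz1 w w' hw hw' hne hzw hzw' hlt
        have hX := (h.cross hV he hf hef hw hw').1 ⟨hne, z.2, hzw, hzw'⟩
        have hmem : ((e, w), (f, w')) ∈ TT E φ β := by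
          unfold TT
          rw [mem_filter, List.mem_toFinset, mem_LL, mem_SG, mem_SG]
          exact ⟨⟨⟨he, hw⟩, hf, hw'⟩, hlt, hX⟩
        refine ⟨((e, w), (f, w')), hmem, ?_⟩
        obtain ⟨-, k1, k2⟩ := hg _ hmem
        refine Prod.ext ?_ ?_
        · exact hz1.symm
        · exact hX.uniq k1 k2 hzw hzw'
      rcases lt_trichotomy (cd e) (cd f) with hlt | heq | hlt
      · exact main e he f hf hef hz1 w w' hw hw' hne hzw hzw' hlt
      · exact absurd (cd_inj heq) hef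
      · exact main f hf e he hef.symm (hz1.trans Sym2.eq_swap) w' w hw' hw hne.symm hzw' hzw hlt
    · rintro ⟨ab, hab, rfl⟩
      obtain ⟨h1, h2, h3, h4, h5, h6⟩ := hT ab hab
      obtain ⟨h7, h8, h9⟩ := hg ab hab
      have hne : ab.1.1 ≠ ab.2.1 := by
        intro h0
        rw [h0] at h5
        exact lt_irrefl _ h5
      have hpath : ∀ a : (ℕ × ℕ) × ℕ, a.1 ∈ E → En a.1 a.2 → ∀ z, z ∈ Sg φ β a →
          z ∈ path 2 (q a.1) := by
        intro a ha hE z hz
        rw [mem_path, (hq _ ha).1, (hq _ ha).2]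
        unfold Sg at hz
        rcases hE with hE | hE
        · rw [hE] at hz
          exact Or.inl hz
        · rw [hE] at hz
          exact Or.inr hz
      refine ⟨ab.1.1, h1, ab.2.1, h2, hne, rfl, hpath _ h1 h3 _ h8, hpath _ h2 h4 _ h9, ?_⟩
      rintro ⟨u, hu1, hu2, hu3⟩
      have k1 : u = ab.1.2 := by
        by_contra hc
        exact h.vert hV h1 h1 hu1 h3 hc (hu3 ▸ h8)
      have k2 : u = ab.2.2 := by
        by_contra hc
        exact h.vert hV h2 h2 hu2 h4 hc (hu3 ▸ h9)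
      exact h7 (k1.symm.trans k2)
  have hinj : Set.InjOn g (TT E φ β : Set _) := by
    intro ab hab ab' hab' hgg
    obtain ⟨h1, h2, h3, h4, h5, h6⟩ := hT ab hab
    obtain ⟨h7, h8, h9⟩ := hg ab hab
    obtain ⟨h1', h2', h3', h4', h5', h6'⟩ := hT ab' hab'
    obtain ⟨h7', h8', h9'⟩ := hg ab' hab'
    have e1 : s(ab.1.1, ab.2.1) = s(ab'.1.1, ab'.2.1) := congrArg Prod.fst hgg
    rw [Sym2.eq_iff] at e1
    have hne : ab.1.1 ≠ ab.2.1 := by
      intro h0
      rw [h0] at h5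
      exact lt_irrefl _ h5
    rcases e1 with ⟨e1, e2⟩ | ⟨e1, e2⟩
    · rw [← hgg] at h8' h9'
      have k1 : ab.1.2 = ab'.1.2 := by
        by_contra hc
        have h8'' : (g ab).2 ∈ Sg φ β (ab.1.1, ab'.1.2) := by
          rw [e1]
          exact h8'
        have := h.self h1 h3 (e1 ▸ h3') hc h8 h8''
        rw [this] at h9
        exact h.bend h1 h2 hne h4 h9
      have k2 : ab.2.2 = ab'.2.2 := by
        by_contra hc
        have h9'' : (g ab).2 ∈ Sg φ β (ab.2.1, ab'.2.2) := by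
          rw [e2]
          exact h9'
        have := h.self h2 h4 (e2 ▸ h4') hc h9 h9''
        rw [this] at h8
        exact h.bend h2 h1 hne.symm h3 h8
      exact Prod.ext (Prod.ext e1 k1) (Prod.ext e2 k2)
    · exfalso
      rw [e1, e2] at h5
      exact lt_asymm h5 h5'
  rw [himg]
  refine ⟨(TT E φ β).finite_toSet.image g, ?_⟩
  rw [hinj.ncard_image, Set.ncard_coe_finset]

open Classical in
/-- From the indicator variables to the number of crossings. -/
theorem count1 {E : List (ℕ × ℕ)} (hn : (LL E).Nodup) {φ : ℕ → ℝ × ℝ} {β : ℕ × ℕ → ℝ × ℝ} {k : ℕ}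
    {y : ℕ → ℝ} (h0 : ∀ ab ∈ LL E, 0 ≤ y (code ab))
    (h1 : ∀ ab ∈ LL E, cd ab.1.1 < cd ab.2.1 → X φ β ab.1 ab.2 → 1 ≤ y (code ab))
    (h2 : ((LL E).map fun ab => y (code ab)).sum ≤ ((min k (LL E).length : ℕ) : ℝ)) :
    (TT E φ β).card ≤ k := by
  have e : ((LL E).map fun ab => y (code ab)).sum = ∑ ab ∈ (LL E).toFinset, y (code ab) :=
    (List.sum_toFinset _ hn).symm
  rw [e] at h2
  have h3 : ((TT E φ β).card : ℝ) ≤ ∑ ab ∈ (LL E).toFinset, y (code ab) := by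
    calc ((TT E φ β).card : ℝ) = ∑ _ab ∈ TT E φ β, (1 : ℝ) := by simp
      _ ≤ ∑ ab ∈ TT E φ β, y (code ab) := by
          apply sum_le_sum
          intro ab hab
          unfold TT at hab
          rw [mem_filter, List.mem_toFinset] at hab
          exact h1 ab hab.1 hab.2.1 hab.2.2
      _ ≤ _ := by
          apply sum_le_sum_of_subset_of_nonneg
          · exact filter_subset _ _
          · intro ab hab _
            rw [List.mem_toFinset] at hab
            exact h0 ab hab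
  have h4 : (TT E φ β).card ≤ min k (LL E).length := by exact_mod_cast h3.trans h2
  exact h4.trans (min_le_left _ _)

open Classical in
/-- From the number of crossings to the indicator variables. -/
theorem count2 {E : List (ℕ × ℕ)} (hn : (LL E).Nodup) {φ : ℕ → ℝ × ℝ} {β : ℕ × ℕ → ℝ × ℝ} {k : ℕ}
    (hk : (TT E φ β).card ≤ k) : ∃ y : ℕ → ℝ, (∀ ab ∈ LL E, 0 ≤ y (code ab)) ∧
    (∀ ab ∈ LL E, cd ab.1.1 < cd ab.2.1 → X φ β ab.1 ab.2 → 1 ≤ y (code ab)) ∧
    ((LL E).map fun ab => y (code ab)).sum ≤ ((min k (LL E).length : ℕ) : ℝ) := by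
  let y : ℕ → ℝ := fun n => if ∃ ab ∈ TT E φ β, code ab = n then 1 else 0
  have hy : ∀ ab, y (code ab) = if ab ∈ TT E φ β then 1 else 0 := by
    intro ab
    simp only [y]
    congr 1
    apply propext
    constructor
    · rintro ⟨ab', h1, h2⟩
      rwa [← code_inj h2]
    · intro h1
      exact ⟨ab, h1, rfl⟩
  refine ⟨y, ?_, ?_, ?_⟩
  · intro ab _
    rw [hy]
    split_ifs <;> norm_num
  · intro ab hab h1 h2
    rw [hy, if_pos]
    unfold TT
    rw [mem_filter, List.mem_toFinset]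
    exact ⟨hab, h1, h2⟩
  · have e : ((LL E).map fun ab => y (code ab)).sum = ∑ ab ∈ (LL E).toFinset, y (code ab) :=
      (List.sum_toFinset _ hn).symm
    rw [e]
    simp only [hy]
    have hsub : TT E φ β ⊆ (LL E).toFinset := filter_subset _ _
    rw [Finset.sum_ite_mem, Finset.inter_eq_right.2 hsub, Finset.sum_const, nsmul_eq_mul, mul_one]
    have h5 : (TT E φ β).card ≤ (LL E).length :=
      (card_le_card hsub).trans (List.toFinset_card_le _)
    exact_mod_cast le_min hk h5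

end Pool.Agent.K1H69.PC
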