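import Pool.Agent.K1H23.PC.Defs
import Pool.Agent.H606R2.GPP.SegF

/-!
# Project PC (helper23), piece S_MEM, part 1: the crossings of a drawing with edges of two segments
-/

namespace Pool.Agent.K1H69.PC

open Pool.Agent.K1H23.PC
open Pool.Agent.NPC.ER.GPP (D Meets mem_seg mem_seg_iff pt pt_mem D_pt meets_iff meets_of_side
  eq_of_adj D_self_of_mem)

/-- The conditions on the vertices `φ` and the bends `β` without the number of crossings. -/
structure Dw (V : List ℕ) (E : List (ℕ × ℕ)) (φ : ℕ → ℝ × ℝ) (β : ℕ × ℕ → ℝ × ℝ) : Prop where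
  inj : ∀ u ∈ V, ∀ v ∈ V, φ u = φ v → u = v
  s1 : ∀ e ∈ E, φ e.1 ∉ segment ℝ (φ e.2) (β e)
  s2 : ∀ e ∈ E, φ e.2 ∉ segment ℝ (φ e.1) (β e)
  a1 : ∀ e ∈ E, ∀ w ∈ V, w ≠ e.1 → w ≠ e.2 → φ w ∉ segment ℝ (φ e.1) (β e)
  a2 : ∀ e ∈ E, ∀ w ∈ V, w ≠ e.1 → w ≠ e.2 → φ w ∉ segment ℝ (φ e.2) (β e)
  p1 : ∀ e ∈ E, ∀ f ∈ E, e ≠ f → β e ∉ segment ℝ (φ f.1) (β f)
  p2 : ∀ e ∈ E, ∀ f ∈ E, e ≠ f → β e ∉ segment ℝ (φ f.2) (β f)

/-- The path of an edge. -/
theorem mem_path {q : ℕ → ℝ × ℝ} {x : ℝ × ℝ} : x ∈ path 2 q ↔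
    x ∈ segment ℝ (q 0) (q 1) ∨ x ∈ segment ℝ (q 2) (q 1) := by
  unfold path
  simp only [Set.mem_ofPred_eq]
  constructor
  · rintro ⟨i, hi, hx⟩
    have : i = 0 ∨ i = 1 := by omega
    rcases this with rfl | rfl
    · exact Or.inl hx
    · right
      rw [segment_symm]
      exact hx
  · rintro (h | h)
    · exact ⟨0, by norm_num, h⟩
    · refine ⟨1, by norm_num, ?_⟩
      rw [segment_symm] at h
      exact h

theorem ne_of_notMem {p q r : ℝ × ℝ} (h : p ∉ segment ℝ q r) : p ≠ q ∧ p ≠ r := by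
  constructor
  · rintro rfl
    exact h (left_mem_segment ℝ _ _)
  · rintro rfl
    exact h (right_mem_segment ℝ _ _)

/-- The reduction to `Dw`. -/
theorem isPoly_iff {V : List ℕ} {E : List (ℕ × ℕ)} {φ : ℕ → ℝ × ℝ} {q : ℕ × ℕ → ℕ → ℝ × ℝ} :
    (IsPoly 2 V E φ q ∧ Proper 2 E q) ↔
      (∀ e ∈ E, q e 0 = φ e.1 ∧ q e 2 = φ e.2) ∧ Dw V E φ (fun e => q e 1) := by
  constructor
  · rintro ⟨h, hp⟩
    refine ⟨fun e he => ⟨h.src e he, h.tgt e he⟩, h.inj, ?_, ?_, ?_, ?_, ?_, ?_⟩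
    · intro e he hm
      have h1 := (h.simple e he).meet 0 1 (by norm_num) (by norm_num) (φ e.1) (by
        rw [← h.src e he]
        exact left_mem_segment ℝ _ _) (by
        rw [segment_symm] at hm
        rw [← h.tgt e he] at hm
        exact hm)
      have h2 := (h.simple e he).ne 0 (by norm_num)
      rw [h.src e he] at h2
      exact h2 h1.2
    · intro e he hm
      have h1 := (h.simple e he).meet 0 1 (by norm_num) (by norm_num) (φ e.2) (by
        rw [← h.src e he] at hm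
        exact hm) (by
        rw [← h.tgt e he]
        exact right_mem_segment ℝ _ _)
      have h2 := (h.simple e he).ne 1 (by norm_num)
      rw [show (1 + 1) = 2 by norm_num, h.tgt e he] at h2
      exact h2 h1.2.symm
    · intro e he w hw h1 h2 hm
      apply h.avoid e he w hw h1 h2
      rw [mem_path, h.src e he]
      exact Or.inl hm
    · intro e he w hw h1 h2 hm
      apply h.avoid e he w hw h1 h2
      rw [mem_path, h.tgt e he]
      exact Or.inr hm
    · intro e he f hf hef hm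
      apply hp e he f hf hef 1 (by norm_num) (by norm_num)
      rw [mem_path, h.src f hf]
      exact Or.inl hm
    · intro e he f hf hef hm
      apply hp e he f hf hef 1 (by norm_num) (by norm_num)
      rw [mem_path, h.tgt f hf]
      exact Or.inr hm
  · rintro ⟨h, hD⟩
    refine ⟨⟨hD.inj, fun e he => (h e he).1, fun e he => (h e he).2, ?_, ?_⟩, ?_⟩
    · intro e he
      have n1 := ne_of_notMem (hD.s1 e he)
      have n2 := ne_of_notMem (hD.s2 e he)
      constructor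
      · intro i hi
        have : i = 0 ∨ i = 1 := by omega
        rcases this with rfl | rfl
        · rw [(h e he).1]
          exact n1.2
        · rw [show (1 + 1) = 2 by norm_num, (h e he).2]
          exact n2.2.symm
      · intro i j hij hj x hx1 hx2
        have hi0 : i = 0 := by omega
        have hj1 : j = 1 := by omega
        subst hi0
        subst hj1
        refine ⟨rfl, ?_⟩
        rw [show (0 + 1) = 1 by norm_num] at hx1
        rw [show (1 + 1) = 2 by norm_num] at hx2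
        rw [(h e he).1, segment_symm] at hx1
        rw [(h e he).2] at hx2
        have k1 := hD.s1 e he
        have k2 := hD.s2 e he
        rw [segment_symm] at k1 k2
        exact eq_of_adj k1 k2 hx1 hx2
    · intro e he w hw h1 h2 hm
      rw [mem_path, (h e he).1, (h e he).2] at hm
      rcases hm with hm | hm
      · exact hD.a1 e he w hw h1 h2 hm
      · exact hD.a2 e he w hw h1 h2 hm
    · intro e he f hf hef i hi hi2 hm
      have : i = 1 := by omega
      subst this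
      rw [mem_path, (h f hf).1, (h f hf).2] at hm
      rcases hm with hm | hm
      · exact hD.p1 e he f hf hef hm
      · exact hD.p2 e he f hf hef hm

/-- `w` is an end of `e`. -/
def En (e : ℕ × ℕ) (w : ℕ) : Prop := w = e.1 ∨ w = e.2

/-- The segment of `e` at the end `w`. -/
def Sg (φ : ℕ → ℝ × ℝ) (β : ℕ × ℕ → ℝ × ℝ) (a : (ℕ × ℕ) × ℕ) : Set (ℝ × ℝ) :=
  segment ℝ (φ a.2) (β a.1)

/-- The segments cross properly. -/
def X (φ : ℕ → ℝ × ℝ) (β : ℕ × ℕ → ℝ × ℝ) (a b : (ℕ × ℕ) × ℕ) : Prop :=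
  D (φ a.2) (β a.1) (φ b.2) * D (φ a.2) (β a.1) (β b.1) < 0 ∧
    D (φ b.2) (β b.1) (φ a.2) * D (φ b.2) (β b.1) (β a.1) < 0

section

variable {V : List ℕ} {E : List (ℕ × ℕ)} {φ : ℕ → ℝ × ℝ} {β : ℕ × ℕ → ℝ × ℝ}

theorem Dw.bend (h : Dw V E φ β) {e f : ℕ × ℕ} (he : e ∈ E) (hf : f ∈ E) (hef : e ≠ f) {w : ℕ}
    (hw : En f w) : β e ∉ segment ℝ (φ w) (β f) := by
  rcases hw with rfl | rfl
  · exact h.p1 e he f hf hef
  · exact h.p2 e he f hf hef

theorem Dw.vert (h : Dw V E φ β) (hV : ∀ e ∈ E, e.1 ∈ V ∧ e.2 ∈ V) {e f : ℕ × ℕ} (he : e ∈ E)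
    (hf : f ∈ E) {w w' : ℕ} (hw : En e w) (hw' : En f w') (hne : w ≠ w') :
    φ w ∉ segment ℝ (φ w') (β f) := by
  have hwV : w ∈ V := by
    rcases hw with rfl | rfl
    · exact (hV e he).1
    · exact (hV e he).2
  by_cases h1 : w = f.1
  · rcases hw' with rfl | rfl
    · exact absurd h1 hne
    · rw [h1]
      exact h.s1 f hf
  · by_cases h2 : w = f.2
    · rcases hw' with rfl | rfl
      · rw [h2]
        exact h.s2 f hf
      · exact absurd h2 hne
    · rcases hw' with rfl | rfl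
      · exact h.a1 f hf w hwV h1 h2
      · exact h.a2 f hf w hwV h1 h2

/-- Two segments at the same vertex. -/
theorem Dw.same (h : Dw V E φ β) {e f : ℕ × ℕ} (he : e ∈ E) (hf : f ∈ E) (hef : e ≠ f) {w : ℕ}
    (hw : En e w) (hw' : En f w) {z : ℝ × ℝ} (h1 : z ∈ Sg φ β (e, w)) (h2 : z ∈ Sg φ β (f, w)) :
    z = φ w :=
  eq_of_adj (h.bend he hf hef hw') (h.bend hf he hef.symm hw) h1 h2

/-- Two segments at different vertices. -/
theorem Dw.cross (h : Dw V E φ β) (hV : ∀ e ∈ E, e.1 ∈ V ∧ e.2 ∈ V) {e f : ℕ × ℕ} (he : e ∈ E)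
    (hf : f ∈ E) (hef : e ≠ f) {w w' : ℕ} (hw : En e w) (hw' : En f w') :
    (w ≠ w' ∧ ∃ z, z ∈ Sg φ β (e, w) ∧ z ∈ Sg φ β (f, w')) ↔ X φ β (e, w) (f, w') := by
  constructor
  · rintro ⟨hne, hz⟩
    exact (meets_iff (h.vert hV hf he hw' hw hne.symm) (h.bend hf he hef.symm hw)
      (h.vert hV he hf hw hw' hne) (h.bend he hf hef hw')).1 hz
  · intro hX
    have hne : w ≠ w' := by
      rintro rfl
      have h1 := hX.1
      have : D (φ w) (β e) (φ w) = 0 := by unfold D; ring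
      simp only at h1
      rw [this, zero_mul] at h1
      exact lt_irrefl _ h1
    exact ⟨hne, meets_of_side hX.1 hX.2⟩

/-- The common point is unique. -/
theorem X.uniq {a b : (ℕ × ℕ) × ℕ} (h : X φ β a b) {z z' : ℝ × ℝ} (h1 : z ∈ Sg φ β a)
    (h2 : z ∈ Sg φ β b) (h1' : z' ∈ Sg φ β a) (h2' : z' ∈ Sg φ β b) : z = z' := by
  have k1 := D_self_of_mem h1
  have k1' := D_self_of_mem h1'
  obtain ⟨t, -, -, e1, e2⟩ := mem_seg.1 h2
  obtain ⟨s, -, -, f1, f2⟩ := mem_seg.1 h2'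
  have hz : z = pt t (φ b.2) (β b.1) := Prod.ext e1 e2
  have hz' : z' = pt s (φ b.2) (β b.1) := Prod.ext f1 f2
  rw [hz, D_pt] at k1
  rw [hz', D_pt] at k1'
  have hne : D (φ a.2) (β a.1) (φ b.2) - D (φ a.2) (β a.1) (β b.1) ≠ 0 := by
    intro h0
    have h3 := h.1
    rw [sub_eq_zero.1 h0] at h3
    nlinarith [sq_nonneg (D (φ a.2) (β a.1) (β b.1))]
  have : t = s := by
    have : (t - s) * (D (φ a.2) (β a.1) (φ b.2) - D (φ a.2) (β a.1) (β b.1)) = 0 := by
      linear_combination k1' - k1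
    rcases mul_eq_zero.1 this with h4 | h4
    · linarith
    · exact absurd h4 hne
  rw [hz, hz', this]

/-- The two segments of an edge only meet in the bend. -/
theorem Dw.self (h : Dw V E φ β) {e : ℕ × ℕ} (he : e ∈ E) {w w' : ℕ} (hw : En e w)
    (hw' : En e w') (hne : w ≠ w') {z : ℝ × ℝ} (h1 : z ∈ Sg φ β (e, w))
    (h2 : z ∈ Sg φ β (e, w')) : z = β e := by
  have k1 := h.s1 e he
  have k2 := h.s2 e he
  rw [segment_symm] at k1 k2
  unfold Sg at h1 h2
  simp only at h1 h2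
  rw [segment_symm] at h1 h2
  rcases hw with rfl | rfl <;> rcases hw' with rfl | rfl
  · exact absurd rfl hne
  · exact eq_of_adj k1 k2 h1 h2
  · exact eq_of_adj k2 k1 h1 h2
  · exact absurd rfl hne

end

end Pool.Agent.K1H69.PC
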