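import Pool.Agent.K1H69.PC.Cnt
import Pool.Agent.K1H23.PC.Stm
import Pool.Agent.H606R2.GPP.Member

/-!
# Project PC (helper23), piece S_MEM, part 3: the formula
-/

namespace Pool.Agent.K1H69.PC

open Pool.Agent.K1H23.PC
open Pool.Agent.NPC Pool.Agent.NPC.ER
open Pool.Agent.NPC.H670R2 (ff tt conj holds_ff holds_tt holds_conj poly_conj poly_tvar poly_tadd
  poly_tmul poly_tneg poly_eq poly_lt poly_not poly_and poly_or poly_le not_etr_ff tm_of_toks
  tm_toks poly_replicate)
open Pool.Agent.NPC.ER.GPP (D vx neF holds_neF avF holds_avF crF holds_crF poly_neF poly_avF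
  poly_crF)

/-! ### Sums of terms -/

/-- The sum of a list of terms. -/
def sumT (l : List Tm) : Tm := l.foldr Tm.add Tm.zero

theorem eval_sumT (x : ℕ → ℝ) (l : List Tm) : (sumT l).eval x = (l.map fun t => t.eval x).sum := by
  induction l with
  | nil => simp [sumT, Tm.eval]
  | cons a l ih =>
    change a.eval x + (sumT l).eval x = _
    rw [ih]
    simp

theorem toks_sumT (l : List Tm) : (sumT l).toks =
    l.flatMap Tm.toks ++ Tm.zero.toks ++ List.replicate l.length Tok.add := by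
  induction l with
  | nil => simp [sumT]
  | cons a l ih =>
    change a.toks ++ (sumT l).toks ++ [Tok.add] = _
    rw [ih]
    simp [List.replicate_succ']

theorem poly_sumT {α : Type} [TEnc α] {l : α → List Tm} (hl : Poly l) :
    Poly (fun a => sumT (l a)) := by
  refine tm_of_toks (Poly.congr (f := fun a => (l a).flatMap Tm.toks ++ Tm.zero.toks ++
    List.replicate (l a).length Tok.add) ?_ fun a => (toks_sumT _).symm)
  refine Poly.append (Poly.append (Poly.flatMap (F := fun _ φ => Tm.toks φ) hl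
    (tm_toks (Poly.snd Poly.id))) (Pool.Agent.NPC.Poly.const _)) (poly_replicate hl _)

/-! ### The formula -/

/-- The number of the point of a bend. -/
def pb (e : ℕ × ℕ) : ℕ := 3 * cd e + 1

/-- The indicator variable of a pair of segments. -/
def yv (ab : ((ℕ × ℕ) × ℕ) × ((ℕ × ℕ) × ℕ)) : Tm := Tm.var (6 * code ab + 4)

/-- The list of conditions. -/
def conds (G : Inst) : List Fm :=
  (G.1.flatMap fun u => G.1.map fun v => if u = v then tt else neF (3 * u) (3 * v)) ++
  ((G.2.1.map fun e => Fm.and (avF (3 * e.2) (pb e) (3 * e.1)) (avF (3 * e.1) (pb e) (3 * e.2))) ++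
  ((G.2.1.flatMap fun e => G.1.map fun w => if w = e.1 ∨ w = e.2 then tt else
    Fm.and (avF (3 * e.1) (pb e) (3 * w)) (avF (3 * e.2) (pb e) (3 * w))) ++
  ((G.2.1.flatMap fun e => G.2.1.map fun f => if e = f then tt else
    Fm.and (avF (3 * f.1) (pb f) (pb e)) (avF (3 * f.2) (pb f) (pb e))) ++
  (((LL G.2.1).map fun ab => Fm.and (Fm.le Tm.zero (yv ab))
    (if cd ab.1.1 < cd ab.2.1 then Fm.or (crF (3 * ab.1.2) (pb ab.1.1) (3 * ab.2.2) (pb ab.2.1))
      (Fm.le Tm.one (yv ab)) else tt)) ++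
  [Fm.le (sumT ((LL G.2.1).map yv))
    (sumT ((List.replicate (min G.2.2 (LL G.2.1).length) ()).map fun _ => Tm.one))]))))

theorem conds_iff (G : Inst) (x : ℕ → ℝ) : (∀ ψ ∈ conds G, ψ.Holds x) ↔
    Dw G.1 G.2.1 (fun v => vx x (3 * v)) (fun e => vx x (pb e)) ∧
    (∀ ab ∈ LL G.2.1, 0 ≤ x (6 * code ab + 4)) ∧
    (∀ ab ∈ LL G.2.1, cd ab.1.1 < cd ab.2.1 → X (fun v => vx x (3 * v)) (fun e => vx x (pb e))
      ab.1 ab.2 → 1 ≤ x (6 * code ab + 4)) ∧
    ((LL G.2.1).map fun ab => x (6 * code ab + 4)).sum ≤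
      ((min G.2.2 (LL G.2.1).length : ℕ) : ℝ) := by
  unfold conds
  simp only [List.forall_mem_append, List.forall_mem_singleton]
  have c1 : (∀ ψ ∈ (G.1.flatMap fun u => G.1.map fun v => if u = v then tt else
      neF (3 * u) (3 * v)), ψ.Holds x) ↔
      ∀ u ∈ G.1, ∀ v ∈ G.1, vx x (3 * u) = vx x (3 * v) → u = v := by
    constructor
    · intro h u hu v hv huv
      by_contra hne
      have := h _ (List.mem_flatMap.2 ⟨u, hu, List.mem_map.2 ⟨v, hv, rfl⟩⟩)
      rw [if_neg hne, holds_neF] at this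
      exact this huv
    · intro h ψ hψ
      obtain ⟨u, hu, hψ⟩ := List.mem_flatMap.1 hψ
      obtain ⟨v, hv, rfl⟩ := List.mem_map.1 hψ
      split_ifs with hc
      · exact holds_tt x
      · rw [holds_neF]
        exact fun h3 => hc (h u hu v hv h3)
  have c2 : (∀ ψ ∈ (G.2.1.map fun e => Fm.and (avF (3 * e.2) (pb e) (3 * e.1))
      (avF (3 * e.1) (pb e) (3 * e.2))), ψ.Holds x) ↔
      ∀ e ∈ G.2.1, vx x (3 * e.1) ∉ segment ℝ (vx x (3 * e.2)) (vx x (pb e)) ∧
        vx x (3 * e.2) ∉ segment ℝ (vx x (3 * e.1)) (vx x (pb e)) := by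
    constructor
    · intro h e he
      have := h _ (List.mem_map.2 ⟨e, he, rfl⟩)
      rwa [Fm.Holds, holds_avF, holds_avF] at this
    · intro h ψ hψ
      obtain ⟨e, he, rfl⟩ := List.mem_map.1 hψ
      rw [Fm.Holds, holds_avF, holds_avF]
      exact h e he
  have c3 : (∀ ψ ∈ (G.2.1.flatMap fun e => G.1.map fun w => if w = e.1 ∨ w = e.2 then tt else
      Fm.and (avF (3 * e.1) (pb e) (3 * w)) (avF (3 * e.2) (pb e) (3 * w))), ψ.Holds x) ↔
      ∀ e ∈ G.2.1, ∀ w ∈ G.1, w ≠ e.1 → w ≠ e.2 →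
        vx x (3 * w) ∉ segment ℝ (vx x (3 * e.1)) (vx x (pb e)) ∧
        vx x (3 * w) ∉ segment ℝ (vx x (3 * e.2)) (vx x (pb e)) := by
    constructor
    · intro h e he w hw h1 h2
      have := h _ (List.mem_flatMap.2 ⟨e, he, List.mem_map.2 ⟨w, hw, rfl⟩⟩)
      rwa [if_neg (by rintro (h3 | h3); exacts [h1 h3, h2 h3]), Fm.Holds, holds_avF,
        holds_avF] at this
    · intro h ψ hψ
      obtain ⟨e, he, hψ⟩ := List.mem_flatMap.1 hψ
      obtain ⟨w, hw, rfl⟩ := List.mem_map.1 hψ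
      split_ifs with hc
      · exact holds_tt x
      · push Not at hc
        rw [Fm.Holds, holds_avF, holds_avF]
        exact h e he w hw hc.1 hc.2
  have c4 : (∀ ψ ∈ (G.2.1.flatMap fun e => G.2.1.map fun f => if e = f then tt else
      Fm.and (avF (3 * f.1) (pb f) (pb e)) (avF (3 * f.2) (pb f) (pb e))), ψ.Holds x) ↔
      ∀ e ∈ G.2.1, ∀ f ∈ G.2.1, e ≠ f →
        vx x (pb e) ∉ segment ℝ (vx x (3 * f.1)) (vx x (pb f)) ∧
        vx x (pb e) ∉ segment ℝ (vx x (3 * f.2)) (vx x (pb f)) := by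
    constructor
    · intro h e he f hf hef
      have := h _ (List.mem_flatMap.2 ⟨e, he, List.mem_map.2 ⟨f, hf, rfl⟩⟩)
      rwa [if_neg hef, Fm.Holds, holds_avF, holds_avF] at this
    · intro h ψ hψ
      obtain ⟨e, he, hψ⟩ := List.mem_flatMap.1 hψ
      obtain ⟨f, hf, rfl⟩ := List.mem_map.1 hψ
      split_ifs with hc
      · exact holds_tt x
      · rw [Fm.Holds, holds_avF, holds_avF]
        exact h e he f hf hc
  have c5 : (∀ ψ ∈ ((LL G.2.1).map fun ab => Fm.and (Fm.le Tm.zero (yv ab))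
      (if cd ab.1.1 < cd ab.2.1 then Fm.or (crF (3 * ab.1.2) (pb ab.1.1) (3 * ab.2.2) (pb ab.2.1))
      (Fm.le Tm.one (yv ab)) else tt)), ψ.Holds x) ↔
      (∀ ab ∈ LL G.2.1, 0 ≤ x (6 * code ab + 4)) ∧
      (∀ ab ∈ LL G.2.1, cd ab.1.1 < cd ab.2.1 → X (fun v => vx x (3 * v)) (fun e => vx x (pb e))
        ab.1 ab.2 → 1 ≤ x (6 * code ab + 4)) := by
    constructor
    · intro h
      constructor
      · intro ab hab
        have := h _ (List.mem_map.2 ⟨ab, hab, rfl⟩)
        exact this.1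
      · intro ab hab hlt hX
        have := h _ (List.mem_map.2 ⟨ab, hab, rfl⟩)
        have h2 := this.2
        rw [if_pos hlt, Fm.Holds, holds_crF] at h2
        rcases h2 with h2 | h2
        · exact absurd hX h2
        · exact h2
    · rintro ⟨h1, h2⟩ ψ hψ
      obtain ⟨ab, hab, rfl⟩ := List.mem_map.1 hψ
      refine ⟨h1 ab hab, ?_⟩
      split_ifs with hc
      · rw [Fm.Holds, holds_crF]
        by_cases hX : X (fun v => vx x (3 * v)) (fun e => vx x (pb e)) ab.1 ab.2
        · exact Or.inr (h2 ab hab hc hX)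
        · exact Or.inl hX
      · exact holds_tt x
  have c6 : (Fm.le (sumT ((LL G.2.1).map yv))
      (sumT ((List.replicate (min G.2.2 (LL G.2.1).length) ()).map fun _ => Tm.one))).Holds x ↔
      ((LL G.2.1).map fun ab => x (6 * code ab + 4)).sum ≤
      ((min G.2.2 (LL G.2.1).length : ℕ) : ℝ) := by
    rw [Fm.Holds, eval_sumT, eval_sumT, List.map_map, List.map_map]
    have e1 : ((List.replicate (min G.2.2 (LL G.2.1).length) ()).map
        ((fun t => Tm.eval x t) ∘ fun _ => Tm.one)).sum =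
        ((min G.2.2 (LL G.2.1).length : ℕ) : ℝ) := by
      rw [List.map_replicate, List.sum_replicate]
      simp [Tm.eval]
    rw [e1]
    rfl
  rw [c1, c2, c3, c4, c5, c6]
  constructor
  · rintro ⟨h1, h2, h3, h4, ⟨h5, h6⟩, h7⟩
    exact ⟨⟨h1, fun e he => (h2 e he).1, fun e he => (h2 e he).2,
      fun e he w hw k1 k2 => (h3 e he w hw k1 k2).1, fun e he w hw k1 k2 => (h3 e he w hw k1 k2).2,
      fun e he f hf k => (h4 e he f hf k).1, fun e he f hf k => (h4 e he f hf k).2⟩, h5, h6, h7⟩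
  · rintro ⟨⟨h1, s1, s2, a1, a2, p1, p2⟩, h5, h6, h7⟩
    exact ⟨h1, fun e he => ⟨s1 e he, s2 e he⟩,
      fun e he w hw k1 k2 => ⟨a1 e he w hw k1 k2, a2 e he w hw k1 k2⟩,
      fun e he f hf k => ⟨p1 e he f hf k, p2 e he f hf k⟩, ⟨h5, h6⟩, h7⟩

theorem cr_iff {G : Inst} (hG : IsInst G) : CR 2 G ↔ ∃ x : ℕ → ℝ, ∀ ψ ∈ conds G, ψ.Holds x := by
  obtain ⟨-, hE, hV⟩ := hG
  have hV' : ∀ e ∈ G.2.1, e.1 ∈ G.1 ∧ e.2 ∈ G.1 := fun e he => ⟨(hV e he).1, (hV e he).2.1⟩
  have hLL : (LL G.2.1).Nodup := nodup_LL (nodup_SG hE fun e he => (hV e he).2.2.ne)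
  simp only [conds_iff]
  constructor
  · rintro ⟨φ, q, h1, h2, -, h4⟩
    obtain ⟨hq, hD⟩ := isPoly_iff.1 ⟨h1, h2⟩
    have hc := (crossings_count hV' hq hD).2
    rw [hc] at h4
    obtain ⟨y, y1, y2, y3⟩ := count2 hLL h4
    let β : ℕ × ℕ → ℝ × ℝ := fun e => q e 1
    let x : ℕ → ℝ := fun n => if n % 6 = 0 then (φ (n / 6)).1 else if n % 6 = 1 then
      (φ (n / 6)).2 else if n % 6 = 2 then (β (Function.invFun cd (n / 6))).1 else
      if n % 6 = 3 then (β (Function.invFun cd (n / 6))).2 else y (n / 6)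
    have x0 : ∀ n, x (6 * n) = (φ n).1 := by
      intro n
      have e1 : 6 * n % 6 = 0 := by omega
      have e2 : 6 * n / 6 = n := by omega
      simp only [x, e1, e2, if_true]
    have x1 : ∀ n, x (6 * n + 1) = (φ n).2 := by
      intro n
      have e1 : (6 * n + 1) % 6 = 1 := by omega
      have e2 : (6 * n + 1) / 6 = n := by omega
      simp only [x, e1, e2]
      norm_num
    have x2 : ∀ n, x (6 * n + 2) = (β (Function.invFun cd n)).1 := by
      intro n
      have e1 : (6 * n + 2) % 6 = 2 := by omega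
      have e2 : (6 * n + 2) / 6 = n := by omega
      simp only [x, e1, e2]
      norm_num
    have x3 : ∀ n, x (6 * n + 3) = (β (Function.invFun cd n)).2 := by
      intro n
      have e1 : (6 * n + 3) % 6 = 3 := by omega
      have e2 : (6 * n + 3) / 6 = n := by omega
      simp only [x, e1, e2]
      norm_num
    have x4 : ∀ n, x (6 * n + 4) = y n := by
      intro n
      have e1 : (6 * n + 4) % 6 = 4 := by omega
      have e2 : (6 * n + 4) / 6 = n := by omega
      simp only [x, e1, e2]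
      norm_num
    have k1 : (fun v => vx x (3 * v)) = φ := by
      funext v
      unfold vx
      rw [show 2 * (3 * v) = 6 * v by ring, x0, x1]
    have k2 : (fun e => vx x (pb e)) = β := by
      funext e
      unfold vx pb
      rw [show 2 * (3 * cd e + 1) = 6 * cd e + 2 by ring,
        show 6 * cd e + 2 + 1 = 6 * cd e + 3 by ring, x2, x3, Function.leftInverse_invFun cd_inj]
    refine ⟨x, ?_, ?_, ?_, ?_⟩
    · rw [k1, k2]
      exact hD
    · intro ab hab
      rw [x4]
      exact y1 ab hab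
    · intro ab hab hlt hX
      rw [k1, k2] at hX
      rw [x4]
      exact y2 ab hab hlt hX
    · simp only [x4]
      exact y3
  · rintro ⟨x, hD, h2, h3, h4⟩
    let φ : ℕ → ℝ × ℝ := fun v => vx x (3 * v)
    let q : ℕ × ℕ → ℕ → ℝ × ℝ := fun e i => if i = 0 then φ e.1 else if i = 1 then vx x (pb e)
      else φ e.2
    have hq : ∀ e ∈ G.2.1, q e 0 = φ e.1 ∧ q e 2 = φ e.2 := by
      intro e _
      constructor
      · simp [q]
      · simp [q]
    have hβ : (fun e => q e 1) = fun e => vx x (pb e) := by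
      funext e
      simp [q]
    have hD' : Dw G.1 G.2.1 φ (fun e => q e 1) := by
      rw [hβ]
      exact hD
    obtain ⟨g1, g2⟩ := isPoly_iff.2 ⟨hq, hD'⟩
    obtain ⟨f1, f2⟩ := crossings_count hV' hq hD'
    refine ⟨φ, q, g1, g2, f1, ?_⟩
    rw [f2, hβ]
    exact count1 (y := fun n => x (6 * n + 4)) hLL h2 h3 h4

/-- The test for lists without repetitions. -/
def nodB {α : Type} [DecidableEq α] (l : List α) : Bool :=
  l.all fun a => decide ((l.filter fun b => decide (b = a)).length = 1)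

theorem nodB_iff {α : Type} [DecidableEq α] (l : List α) : nodB l = true ↔ l.Nodup := by
  unfold nodB
  rw [List.nodup_iff_count_eq_one]
  simp only [List.all_eq_true, decide_eq_true_eq]
  refine forall₂_congr fun a _ => ?_
  rw [List.count_eq_length_filter]
  constructor <;> intro h <;> rw [← h] <;> congr 1

/-- The test for instances. -/
def instB (G : Inst) : Bool :=
  nodB G.1 && (nodB G.2.1 &&
    G.2.1.all fun e => (decide (e.1 ∈ G.1) && decide (e.2 ∈ G.1)) && decide (e.1 < e.2))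

theorem instB_iff (G : Inst) : instB G = true ↔ IsInst G := by
  unfold instB IsInst
  rw [Bool.and_eq_true, Bool.and_eq_true, nodB_iff, nodB_iff]
  simp only [List.all_eq_true, decide_eq_true_eq, Bool.and_eq_true, and_assoc]

/-- The existential sentence. -/
def form (G : Inst) : Fm := if instB G = true then conj (conds G) else ff

theorem form_correct (G : Inst) : (IsInst G ∧ CR 2 G) ↔ ETR (form G) := by
  unfold form
  split_ifs with h
  · have hG := (instB_iff G).1 h
    unfold ETR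
    simp only [holds_conj]
    rw [← cr_iff hG]
    exact ⟨fun h => h.2, fun h => ⟨hG, h⟩⟩
  · constructor
    · rintro ⟨h1, -⟩
      exact absurd ((instB_iff G).2 h1) h
    · intro h1
      exact absurd h1 not_etr_ff

/-! ### Polynomial time -/

section

variable {α : Type} [TEnc α]

theorem poly_cdp {m n : α → ℕ} (hm : Poly m) (hn : Poly n) : Poly (fun a => cdp (m a) (n a)) :=
  Poly.add (Poly.mul (Poly.add hm hn) (Poly.add hm hn)) hm

theorem poly_cd {e : α → ℕ × ℕ} (he : Poly e) : Poly (fun a => cd (e a)) :=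
  poly_cdp (Poly.fst he) (Poly.snd he)

theorem poly_code {ab : α → ((ℕ × ℕ) × ℕ) × ((ℕ × ℕ) × ℕ)} (h : Poly ab) :
    Poly (fun a => code (ab a)) :=
  poly_cdp (poly_cdp (poly_cd (Poly.fst (Poly.fst h))) (Poly.snd (Poly.fst h)))
    (poly_cdp (poly_cd (Poly.fst (Poly.snd h))) (Poly.snd (Poly.snd h)))

theorem poly_three {n : α → ℕ} (hn : Poly n) : Poly (fun a => 3 * n a) :=
  Poly.mul (Pool.Agent.NPC.Poly.const 3) hn

theorem poly_pb {e : α → ℕ × ℕ} (he : Poly e) : Poly (fun a => pb (e a)) :=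
  Poly.succ (poly_three (poly_cd he))

theorem poly_yv {ab : α → ((ℕ × ℕ) × ℕ) × ((ℕ × ℕ) × ℕ)} (h : Poly ab) :
    Poly (fun a => yv (ab a)) :=
  poly_tvar (Poly.add (Poly.mul (Pool.Agent.NPC.Poly.const 6) (poly_code h)) (Pool.Agent.NPC.Poly.const 4))

theorem poly_SG {E : α → List (ℕ × ℕ)} (hE : Poly E) : Poly (fun a => SG (E a)) := by
  refine Poly.flatMap (F := fun (_ : α) (e : ℕ × ℕ) => [(e, e.1), (e, e.2)]) hE ?_
  have he : Poly (fun p : α × ℕ × ℕ => p.2) := Poly.snd Poly.id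
  exact Poly.cons (Poly.pair he (Poly.fst he)) (Poly.cons (Poly.pair he (Poly.snd he))
    (Pool.Agent.NPC.Poly.const []))

theorem poly_LL {E : α → List (ℕ × ℕ)} (hE : Poly E) : Poly (fun a => LL (E a)) := by
  refine Poly.flatMap (F := fun (a : α) (s : (ℕ × ℕ) × ℕ) => (SG (E a)).map fun b => (s, b))
    (poly_SG hE) ?_
  refine Pool.Agent.NPC.Poly.map (F := fun (p : α × (ℕ × ℕ) × ℕ) (b : (ℕ × ℕ) × ℕ) => (p.2, b))
    ((poly_SG hE).comp (Poly.fst Poly.id)) ?_
  exact Poly.pair (Poly.snd (Poly.fst Poly.id)) (Poly.snd Poly.id)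

theorem poly_nodB {β : Type} [TEnc β] [DecidableEq β] {l : α → List β} (hl : Poly l) :
    Poly (fun a => nodB (l a)) := by
  refine Poly.all (p := fun (a : α) (b : β) =>
    decide (((l a).filter fun c => decide (c = b)).length = 1)) hl ?_
  refine Poly.decide_eq (Poly.length ?_) (Pool.Agent.NPC.Poly.const 1)
  refine Poly.filter (p := fun (q : α × β) (c : β) => decide (c = q.2))
    (hl.comp (Poly.fst Poly.id)) ?_
  exact Poly.decide_eq (Poly.snd Poly.id) (Poly.snd (Poly.fst Poly.id))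

end

theorem poly_conds : Poly conds := by
  have hV : Poly (fun G : Inst => G.1) := Poly.fst Poly.id
  have hE : Poly (fun G : Inst => G.2.1) := Poly.fst (Poly.snd Poly.id)
  have hk : Poly (fun G : Inst => G.2.2) := Poly.snd (Poly.snd Poly.id)
  have hL : Poly (fun G : Inst => LL G.2.1) := poly_LL hE
  refine Poly.append ?_ (Poly.append ?_ (Poly.append ?_ (Poly.append ?_ (Poly.append ?_ ?_))))
  · refine Poly.flatMap (F := fun (G : Inst) (u : ℕ) => G.1.map fun v =>
      if u = v then tt else neF (3 * u) (3 * v)) hV ?_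
    refine Pool.Agent.NPC.Poly.map (F := fun (p : Inst × ℕ) (v : ℕ) => if p.2 = v then tt else
      neF (3 * p.2) (3 * v)) (hV.comp (Poly.fst Poly.id)) ?_
    exact Poly.ite (Poly.decide_eq (Poly.snd (Poly.fst Poly.id)) (Poly.snd Poly.id))
      (Pool.Agent.NPC.Poly.const _) (poly_neF (poly_three (Poly.snd (Poly.fst Poly.id)))
        (poly_three (Poly.snd Poly.id)))
  · refine Pool.Agent.NPC.Poly.map (F := fun (_ : Inst) (e : ℕ × ℕ) => Fm.and
      (avF (3 * e.2) (pb e) (3 * e.1)) (avF (3 * e.1) (pb e) (3 * e.2))) hE ?_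
    have e : Poly (fun q : Inst × ℕ × ℕ => q.2) := Poly.snd Poly.id
    have e1 := poly_three (Poly.fst e)
    have e2 := poly_three (Poly.snd e)
    exact poly_and (poly_avF e2 (poly_pb e) e1) (poly_avF e1 (poly_pb e) e2)
  · refine Poly.flatMap (F := fun (G : Inst) (e : ℕ × ℕ) => G.1.map fun w =>
      if w = e.1 ∨ w = e.2 then tt else
        Fm.and (avF (3 * e.1) (pb e) (3 * w)) (avF (3 * e.2) (pb e) (3 * w))) hE ?_
    refine Pool.Agent.NPC.Poly.map (F := fun (p : Inst × ℕ × ℕ) (w : ℕ) => if w = p.2.1 ∨ w = p.2.2 then tt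
      else Fm.and (avF (3 * p.2.1) (pb p.2) (3 * w)) (avF (3 * p.2.2) (pb p.2) (3 * w)))
      (hV.comp (Poly.fst Poly.id)) ?_
    have e : Poly (fun q : (Inst × ℕ × ℕ) × ℕ => q.1.2) := Poly.snd (Poly.fst Poly.id)
    have e1 : Poly (fun q : (Inst × ℕ × ℕ) × ℕ => q.1.2.1) := Poly.fst e
    have e2 : Poly (fun q : (Inst × ℕ × ℕ) × ℕ => q.1.2.2) := Poly.snd e
    have w : Poly (fun q : (Inst × ℕ × ℕ) × ℕ => q.2) := Poly.snd Poly.id
    exact Poly.ite (Poly.decide_or (Poly.decide_eq w e1) (Poly.decide_eq w e2))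
      (Pool.Agent.NPC.Poly.const _) (poly_and (poly_avF (poly_three e1) (poly_pb e) (poly_three w))
        (poly_avF (poly_three e2) (poly_pb e) (poly_three w)))
  · refine Poly.flatMap (F := fun (G : Inst) (e : ℕ × ℕ) => G.2.1.map fun f =>
      if e = f then tt else
        Fm.and (avF (3 * f.1) (pb f) (pb e)) (avF (3 * f.2) (pb f) (pb e))) hE ?_
    refine Pool.Agent.NPC.Poly.map (F := fun (p : Inst × ℕ × ℕ) (f : ℕ × ℕ) => if p.2 = f then tt
      else Fm.and (avF (3 * f.1) (pb f) (pb p.2)) (avF (3 * f.2) (pb f) (pb p.2)))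
      (hE.comp (Poly.fst Poly.id)) ?_
    have e : Poly (fun q : (Inst × ℕ × ℕ) × ℕ × ℕ => q.1.2) := Poly.snd (Poly.fst Poly.id)
    have f : Poly (fun q : (Inst × ℕ × ℕ) × ℕ × ℕ => q.2) := Poly.snd Poly.id
    exact Poly.ite (Poly.decide_eq e f) (Pool.Agent.NPC.Poly.const _)
      (poly_and (poly_avF (poly_three (Poly.fst f)) (poly_pb f) (poly_pb e))
        (poly_avF (poly_three (Poly.snd f)) (poly_pb f) (poly_pb e)))
  · refine Pool.Agent.NPC.Poly.map (F := fun (_ : Inst) (ab : ((ℕ × ℕ) × ℕ) × ((ℕ × ℕ) × ℕ)) =>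
      Fm.and (Fm.le Tm.zero (yv ab)) (if cd ab.1.1 < cd ab.2.1 then
        Fm.or (crF (3 * ab.1.2) (pb ab.1.1) (3 * ab.2.2) (pb ab.2.1)) (Fm.le Tm.one (yv ab))
        else tt)) hL ?_
    have s : Poly (fun q : Inst × ((ℕ × ℕ) × ℕ) × ((ℕ × ℕ) × ℕ) => q.2) := Poly.snd Poly.id
    have a := Poly.fst s
    have b := Poly.snd s
    exact poly_and (poly_le (Pool.Agent.NPC.Poly.const _) (poly_yv s))
      (Poly.ite (Poly.decide_lt (poly_cd (Poly.fst a)) (poly_cd (Poly.fst b)))
        (poly_or (poly_crF (poly_three (Poly.snd a)) (poly_pb (Poly.fst a))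
          (poly_three (Poly.snd b)) (poly_pb (Poly.fst b))) (poly_le (Pool.Agent.NPC.Poly.const _) (poly_yv s)))
        (Pool.Agent.NPC.Poly.const _))
  · refine Poly.cons ?_ (Pool.Agent.NPC.Poly.const [])
    refine poly_le (poly_sumT ?_) (poly_sumT ?_)
    · exact Pool.Agent.NPC.Poly.map (F := fun (_ : Inst) (ab : ((ℕ × ℕ) × ℕ) × ((ℕ × ℕ) × ℕ)) => yv ab) hL
        (poly_yv (Poly.snd Poly.id))
    · have hm : UPoly (fun G : Inst => min G.2.2 (LL G.2.1).length) :=
        UPoly.of_le (Poly.min hk (Poly.length hL)) (UPoly.length hL) fun G => min_le_right _ _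
      exact Pool.Agent.NPC.Poly.map (F := fun (_ : Inst) (_ : Unit) => Tm.one) hm (Pool.Agent.NPC.Poly.const _)

theorem poly_instB : Poly instB := by
  have hV : Poly (fun G : Inst => G.1) := Poly.fst Poly.id
  have hE : Poly (fun G : Inst => G.2.1) := Poly.fst (Poly.snd Poly.id)
  have h1 : Poly (fun p : Inst × (ℕ × ℕ) => p.1.1) := Poly.fst (Poly.fst Poly.id)
  have e1 : Poly (fun p : Inst × (ℕ × ℕ) => p.2.1) := Poly.fst (Poly.snd Poly.id)
  have e2 : Poly (fun p : Inst × (ℕ × ℕ) => p.2.2) := Poly.snd (Poly.snd Poly.id)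
  exact Poly.and (poly_nodB hV) (Poly.and (poly_nodB hE)
    (Poly.all (p := fun (G : Inst) (e : ℕ × ℕ) =>
      (decide (e.1 ∈ G.1) && decide (e.2 ∈ G.1)) && decide (e.1 < e.2)) hE
      (Poly.and (Poly.and (Poly.decide_mem e1 h1) (Poly.decide_mem e2 h1))
        (Poly.decide_lt e1 e2))))

theorem poly_form : Poly form := by
  unfold form
  exact Poly.ite (Poly.decide_bool poly_instB) (poly_conj poly_conds) (Pool.Agent.NPC.Poly.const _)

/-- `CR 2` belongs to `∃ℝ`. -/
theorem t_MEM : S_MEM := InER.of_poly poly_form form_correct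

end Pool.Agent.K1H69.PC
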